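import Pool.Agent.FS.FifthUp.Main

set_option autoImplicit false

namespace Pool.Agent.FS.FifthUp

open Finset
open scoped Classical

variable {V : Type} {G : SimpleGraph V} {M : ℕ}

lemma even_sum (Γ : SimpleGraph V) (Z : Finset V) :
    Even (∑ x ∈ Z, (Z.filter (Γ.Adj x)).card) := by
  induction Z using Finset.induction_on with
  | empty => simp
  | insert a Z ha ih =>
    have h1 : ((insert a Z).filter (Γ.Adj a)).card = (Z.filter (Γ.Adj a)).card := by
      rw [filter_insert, if_neg Γ.irrefl]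
    have h2 : ∀ x ∈ Z, ((insert a Z).filter (Γ.Adj x)).card =
        (Z.filter (Γ.Adj x)).card + if Γ.Adj a x then 1 else 0 := by
      intro x _
      rw [filter_insert]
      by_cases k : Γ.Adj a x
      · rw [if_pos k.symm, if_pos k, card_insert_of_notMem fun k' => ha (mem_filter.1 k').1]
      · rw [if_neg fun k' => k k'.symm, if_neg k, add_zero]
    rw [sum_insert ha, h1, sum_congr rfl h2, sum_add_distrib, ← card_filter]
    obtain ⟨c, hc⟩ := ih
    refine ⟨c + (Z.filter (Γ.Adj a)).card, ?_⟩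
    rw [hc]
    change (Z.filter (Γ.Adj a)).card + (c + c + (Z.filter (Γ.Adj a)).card) = _
    omega

lemma sum_swap (Γ : SimpleGraph V) (A B : Finset V) :
    ∑ x ∈ A, (B.filter (Γ.Adj x)).card = ∑ y ∈ B, (A.filter (Γ.Adj y)).card := by
  simp only [card_filter]
  rw [sum_comm]
  exact sum_congr rfl fun y _ => sum_congr rfl fun x _ => by simp only [Γ.adj_comm]

lemma K_cubic {Γ : SimpleGraph V} {W : Finset V} (h : ∀ x ∈ W, (W.filter (Γ.Adj x)).card = 3) :
    K W Γ = W :=
  filter_true_of_mem fun w hw => ⟨W, subset_rfl, hw, fun x hx => by rw [h x hx]; omega, (h w hw).ge⟩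

lemma four {Γ : SimpleGraph V} {W : Finset V} (h : ∀ x ∈ W, (W.filter (Γ.Adj x)).card = 3)
    {v : V} (hv : v ∈ W) : (K (W \ {v}) Γ).card + 4 ≤ W.card := by
  have h1 : K (W \ {v}) Γ ⊆ W \ insert v (W.filter (Γ.Adj v)) := by
    intro w hw
    obtain ⟨a1, C, a2, -, -, a5⟩ := mem_filter.1 hw
    obtain ⟨b1, b2⟩ := mem_sdiff.1 a1
    refine mem_sdiff.2 ⟨b1, fun k => ?_⟩
    rcases mem_insert.1 k with k | k
    · exact b2 (mem_singleton.2 k)
    · have c1 : C.filter (Γ.Adj w) ⊆ (W.filter (Γ.Adj w)).erase v := fun y hy =>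
        mem_erase.2 ⟨fun e => (mem_sdiff.1 (a2 (mem_filter.1 hy).1)).2 (mem_singleton.2 e),
          mem_filter.2 ⟨(mem_sdiff.1 (a2 (mem_filter.1 hy).1)).1, (mem_filter.1 hy).2⟩⟩
      have c2 := card_le_card c1
      rw [card_erase_of_mem (mem_filter.2 ⟨hv, (mem_filter.1 k).2.symm⟩), h w b1] at c2
      omega
  have h2 := card_le_card h1
  have h3 : insert v (W.filter (Γ.Adj v)) ⊆ W := insert_subset hv (filter_subset _ _)
  have h4 := card_le_card h3
  rw [card_sdiff_of_subset h3] at h2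
  rw [card_insert_of_notMem fun k => Γ.irrefl (mem_filter.1 k).2, h v hv] at h2 h4
  omega

lemma six {Γ : SimpleGraph V} {W : Finset V} (h : ∀ x ∈ W, (W.filter (Γ.Adj x)).card = 3)
    (hs : ∀ z ∈ W, ¬ ∀ a ∈ W.filter (Γ.Adj z), ∀ b ∈ W.filter (Γ.Adj z), a ≠ b → Γ.Adj a b)
    {u v : V} (hu : u ∈ W) (hv : v ∈ W) (huv : u ≠ v) : (K (W \ {u, v}) Γ).card + 6 ≤ W.card := by
  set K' := K (W \ {u, v}) Γ with hK
  let C := W.filter fun x => ∃ C ⊆ W \ {u, v}, x ∈ C ∧ ∀ y ∈ C, 2 ≤ (C.filter (Γ.Adj y)).card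
  have sC : ∀ C' ⊆ W \ {u, v}, (∀ y ∈ C', 2 ≤ (C'.filter (Γ.Adj y)).card) → C' ⊆ C :=
    fun C' a b x hx => mem_filter.2 ⟨(mem_sdiff.1 (a hx)).1, C', a, hx, b⟩
  have c1 : ∀ x ∈ C, 2 ≤ (C.filter (Γ.Adj x)).card := fun x hx => by
    obtain ⟨-, C', a1, a2, a3⟩ := mem_filter.1 hx
    exact (a3 x a2).trans (card_le_card (filter_subset_filter _ (sC C' a1 a3)))
  have c2 : ∀ x ∈ K', x ∈ C ∧ 3 ≤ (C.filter (Γ.Adj x)).card := fun x hx => by
    obtain ⟨-, C', a1, a2, a3, a4⟩ := mem_filter.1 hx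
    exact ⟨sC C' a1 a3 a2, a4.trans (card_le_card (filter_subset_filter _ (sC C' a1 a3)))⟩
  have cW : C ⊆ W := filter_subset _ _
  have kC : K' ⊆ C := fun x hx => (c2 x hx).1
  have sp : ∀ x ∈ W, (C.filter (Γ.Adj x)).card + ((W \ C).filter (Γ.Adj x)).card = 3 := by
    intro x hx
    rw [← card_union_of_disjoint (disjoint_filter_filter disjoint_sdiff), ← filter_union,
      union_sdiff_of_subset cW, h x hx]
  have e1 : ∑ x ∈ W \ C, (C.filter (Γ.Adj x)).card +
      ∑ x ∈ W \ C, ((W \ C).filter (Γ.Adj x)).card = 3 * (W \ C).card := by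
    rw [← sum_add_distrib, sum_congr rfl fun x hx => sp x (mem_sdiff.1 hx).1]
    simp [mul_comm]
  have e2 : ∑ x ∈ W \ C, (C.filter (Γ.Adj x)).card ≤ (C \ K').card := by
    rw [sum_swap, ← sum_sdiff kC, sum_eq_zero (s := K') fun x hx => by
      have := sp x (cW (kC hx))
      have := (c2 x hx).2
      omega]
    rw [add_zero, card_eq_sum_ones (C \ K')]
    refine sum_le_sum fun x hx => ?_
    have := sp x (cW (mem_sdiff.1 hx).1)
    have := c1 x (mem_sdiff.1 hx).1
    omega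
  have er : ∀ x, (W \ C).filter (Γ.Adj x) ⊆ (W \ C).erase x := fun x y hy =>
    mem_erase.2 ⟨(mem_filter.1 hy).2.ne', (mem_filter.1 hy).1⟩
  have e3 : ∀ x ∈ W \ C, ((W \ C).filter (Γ.Adj x)).card ≤ (W \ C).card - 1 := fun x hx =>
    (card_le_card (er x)).trans (card_erase_of_mem hx).le
  have e4 := sum_le_card_nsmul _ _ _ e3
  rw [smul_eq_mul] at e4
  obtain ⟨t, e5⟩ := even_sum Γ (W \ C)
  have nC : ∀ x ∈ ({u, v} : Finset V), x ∉ C := fun x hx k => by
    obtain ⟨-, C', a1, a2, -⟩ := mem_filter.1 k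
    exact (mem_sdiff.1 (a1 a2)).2 hx
  have uZ : u ∈ W \ C := mem_sdiff.2 ⟨hu, nC u (by simp)⟩
  have vZ : v ∈ W \ C := mem_sdiff.2 ⟨hv, nC v (by simp)⟩
  have e6 : 1 < (W \ C).card := one_lt_card.2 ⟨u, uZ, v, vZ, huv⟩
  have e7 := card_sdiff_add_card_eq_card cW
  have e8 := card_sdiff_add_card_eq_card kC
  by_contra hlt
  have e9 : (W \ C).card = 2 ∨ (W \ C).card = 3 ∨ (W \ C).card = 4 ∨ (W \ C).card = 5 := by omega
  rcases e9 with e | e | e | e
  · rw [e] at e4; omega
  · rw [e] at e4; omega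
  · have all : ∀ x ∈ W \ C, ((W \ C).filter (Γ.Adj x)).card = 3 := by
      have e10 : ∑ x ∈ W \ C, ((W \ C).filter (Γ.Adj x)).card = ∑ _x ∈ W \ C, 3 := by
        rw [sum_const, smul_eq_mul, e]
        rw [e] at e4
        omega
      exact (sum_eq_sum_iff_of_le fun x hx => by have := e3 x hx; omega).1 e10
    have fe : ∀ x ∈ W \ C, (W \ C).filter (Γ.Adj x) = (W \ C).erase x := fun x hx =>
      eq_of_subset_of_card_le (er x) (by rw [card_erase_of_mem hx, all x hx, e])
    have fu : (W \ C).filter (Γ.Adj u) = W.filter (Γ.Adj u) :=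
      eq_of_subset_of_card_le (filter_subset_filter _ sdiff_subset) (by rw [all u uZ, h u hu])
    refine hs u hu fun a ha b hb hab => ?_
    rw [← fu] at ha hb
    have : b ∈ (W \ C).filter (Γ.Adj a) := by
      rw [fe a (mem_filter.1 ha).1]
      exact mem_erase.2 ⟨hab.symm, (mem_filter.1 hb).1⟩
    exact (mem_filter.1 this).2
  · omega

lemma Inv.base {U : Finset V} {Γ : SimpleGraph V} (h : Inv G M ∅ U Γ) : Good G M (∅ ∪ U) ∅ := by
  rw [empty_union]
  intro x hx _
  obtain ⟨T, a, b, c, d, -⟩ := h.lump x hx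
  exact ⟨T, a, b, c, fun y hy y' hy' _ => d y hy y' hy'⟩

lemma Inv.cubic {W U : Finset V} {Γ : SimpleGraph V} (h : Inv G M W U Γ)
    (hz : ¬ ∃ z ∈ W, (W.filter (Γ.Adj z)).card ≤ 2 ∨
      ∀ a ∈ W.filter (Γ.Adj z), ∀ b ∈ W.filter (Γ.Adj z), a ≠ b → Γ.Adj a b) :
    ∀ x ∈ W, (W.filter (Γ.Adj x)).card = 3 := fun x hx => by
  have h1 := (h.cnt x hx).trans (h.deg x (mem_union_left _ hx))
  have h2 : ¬ (W.filter (Γ.Adj x)).card ≤ 2 := fun k => hz ⟨x, hx, Or.inl k⟩
  omega

lemma phaseB (n : ℕ) : ∀ (W U : Finset V) (Γ : SimpleGraph V), W.card ≤ n → Inv G M W U Γ →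
    ∃ D, Good G M (W ∪ U) D ∧ 4 * (M * D.card) ≤ M * (K W Γ).card + 16 * (W ∪ U).card := by
  induction n with
  | zero =>
    intro W U Γ hn h
    obtain rfl := card_eq_zero.1 (Nat.le_zero.1 hn)
    exact ⟨∅, h.base, by simp⟩
  | succ n ih =>
    intro W U Γ hn h
    by_cases hz : ∃ z ∈ W, (W.filter (Γ.Adj z)).card ≤ 2 ∨
      ∀ a ∈ W.filter (Γ.Adj z), ∀ b ∈ W.filter (Γ.Adj z), a ≠ b → Γ.Adj a b
    · obtain ⟨z, hzW, hz⟩ := hz
      obtain ⟨W', U', Γ', a1, a2, a3, a4, a5⟩ := elim h hzW hz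
      have b1 := card_le_card a2
      rw [card_erase_of_mem hzW] at b1
      obtain ⟨D', c1, c2⟩ := ih W' U' Γ' (by omega) a1
      obtain ⟨D, d1, d2⟩ := a5 D' c1
      have := Nat.mul_le_mul_left M (card_le_card a3)
      exact ⟨D, d1, by omega⟩
    · rcases W.eq_empty_or_nonempty with rfl | ⟨v, hv⟩
      · exact ⟨∅, h.base, by simp⟩
      have hS : ({v} : Finset V) ⊆ W := singleton_subset_iff.2 hv
      obtain ⟨D', c1, c2⟩ := ih (W \ {v}) U Γ
        (by rw [card_sdiff_of_subset hS, card_singleton]; omega) (h.del hS)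
      rw [h.sdiff hS] at c1 c2
      refine ⟨insert v D', c1.del fun x hx => Or.inl (mem_singleton.1 hx).symm, ?_⟩
      rw [K_cubic (h.cubic hz)]
      have d1 := Nat.mul_le_mul_left M (four (h.cubic hz) hv)
      have d2 := Nat.mul_le_mul_left M (card_insert_le v D')
      have d3 : ((W ∪ U) \ {v}).card ≤ (W ∪ U).card := card_le_card sdiff_subset
      rw [mul_add] at d1 d2
      omega

lemma phaseA (n : ℕ) : ∀ (W U : Finset V) (Γ : SimpleGraph V), W.card ≤ n → Inv G M W U Γ →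
    ∃ D, Good G M (W ∪ U) D ∧ 20 * (M * D.card) ≤
      3 * (M * (K W Γ).card) + M * (W ∪ U).card + 80 * (W ∪ U).card := by
  induction n with
  | zero =>
    intro W U Γ hn h
    obtain rfl := card_eq_zero.1 (Nat.le_zero.1 hn)
    exact ⟨∅, h.base, by simp⟩
  | succ n ih =>
    intro W U Γ hn h
    by_cases hz : ∃ z ∈ W, (W.filter (Γ.Adj z)).card ≤ 2 ∨
      ∀ a ∈ W.filter (Γ.Adj z), ∀ b ∈ W.filter (Γ.Adj z), a ≠ b → Γ.Adj a b
    · obtain ⟨z, hzW, hz⟩ := hz
      obtain ⟨W', U', Γ', a1, a2, a3, a4, a5⟩ := elim h hzW hz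
      have b1 := card_le_card a2
      rw [card_erase_of_mem hzW] at b1
      obtain ⟨D', c1, c2⟩ := ih W' U' Γ' (by omega) a1
      obtain ⟨D, d1, d2⟩ := a5 D' c1
      have := Nat.mul_le_mul_left M (card_le_card a3)
      have := Nat.mul_le_mul_left M a4
      exact ⟨D, d1, by omega⟩
    · have hc := h.cubic hz
      rw [K_cubic hc]
      by_cases hr : ∃ u ∈ W, ∃ v ∈ W, G.Adj u v
      · obtain ⟨u, hu, v, hv, huv⟩ := hr
        have hS : ({u, v} : Finset V) ⊆ W := insert_subset hu (singleton_subset_iff.2 hv)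
        obtain ⟨D', c1, c2⟩ := ih (W \ {u, v}) U Γ
          (by rw [card_sdiff_of_subset hS, card_pair huv.ne]; omega) (h.del hS)
        rw [h.sdiff hS] at c1 c2
        refine ⟨insert u D', c1.del fun x hx => ?_, ?_⟩
        · rcases mem_insert.1 hx with k | k
          · exact Or.inl k.symm
          · exact Or.inr (mem_singleton.1 k ▸ huv)
        have d1 := Nat.mul_le_mul_left M
          (six hc (fun z a b => hz ⟨z, a, Or.inr b⟩) hu hv huv.ne)
        have d2 := Nat.mul_le_mul_left M (card_insert_le u D')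
        have d3 := card_sdiff_add_card_eq_card (hS.trans (subset_union_left (s₂ := U)))
        rw [card_pair huv.ne] at d3
        have d4 := congrArg (M * ·) d3
        simp only [mul_add] at d1 d2 d4
        omega
      · obtain ⟨D, c1, c2⟩ := phaseB W.card W U Γ le_rfl h
        rw [K_cubic hc] at c2
        refine ⟨D, c1, ?_⟩
        have d1 : ∑ _x ∈ W, 3 ≤ ∑ x ∈ W, (U.filter (G.Adj x)).card := sum_le_sum fun x hx => by
          refine ((hc x hx).ge.trans (h.cnt x hx)).trans (card_le_card fun y hy => ?_)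
          obtain ⟨a1, a2⟩ := mem_filter.1 hy
          exact mem_filter.2 ⟨(mem_union.1 a1).resolve_left fun k => hr ⟨x, hx, y, k, a2⟩, a2⟩
        have d2 : ∑ y ∈ U, (W.filter (G.Adj y)).card ≤ ∑ _y ∈ U, 3 := sum_le_sum fun y hy =>
          (card_le_card (filter_subset_filter _ subset_union_left)).trans
            (h.deg y (mem_union_right _ hy))
        rw [sum_swap] at d1
        simp only [sum_const, smul_eq_mul] at d1 d2
        have d3 : (W ∪ U).card = W.card + U.card := card_union_of_disjoint (disjoint_left.2 h.disj)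
        have d4 : M * (2 * W.card) ≤ M * (W ∪ U).card := Nat.mul_le_mul_left M (by omega)
        rw [mul_left_comm] at d4
        omega

lemma stage (n : ℕ) : ∀ R : Finset V, R.card ≤ n →
    ∃ D, Good G M R D ∧ 5 * (M * D.card) ≤ M * R.card + 20 * R.card := by
  induction n with
  | zero =>
    intro R hn
    obtain rfl := card_eq_zero.1 (Nat.le_zero.1 hn)
    exact ⟨∅, fun x hx => by simp at hx, by simp⟩
  | succ n ih =>
    intro R hn
    by_cases hv : ∃ v ∈ R, 4 ≤ (R.filter (G.Adj v)).card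
    · obtain ⟨v, hv, h4⟩ := hv
      have hS : insert v (R.filter (G.Adj v)) ⊆ R := insert_subset hv (filter_subset _ _)
      have d3 := card_sdiff_add_card_eq_card hS
      rw [card_insert_of_notMem fun k => G.irrefl (mem_filter.1 k).2] at d3
      obtain ⟨D', c1, c2⟩ := ih (R \ insert v (R.filter (G.Adj v))) (by omega)
      refine ⟨insert v D', c1.del fun x hx => (mem_insert.1 hx).imp Eq.symm
        fun k => (mem_filter.1 k).2, ?_⟩
      have d1 : M * ((R \ insert v (R.filter (G.Adj v))).card + 5) ≤ M * R.card :=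
        Nat.mul_le_mul_left M (by omega)
      have d2 := Nat.mul_le_mul_left M (card_insert_le v D')
      rw [mul_add] at d1 d2
      omega
    · have hI : Inv G M R ∅ G := ⟨fun _ _ => notMem_empty _, fun _ _ _ _ k => k,
        fun x hx => absurd hx (notMem_empty _), fun w _ => by rw [union_empty],
        fun x hx => by
          rw [union_empty] at hx ⊢
          have : ¬ 4 ≤ (R.filter (G.Adj x)).card := fun k => hv ⟨x, hx, k⟩
          omega⟩
      obtain ⟨D, c1, c2⟩ := phaseA R.card R ∅ G le_rfl hI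
      rw [union_empty] at c1 c2
      have d1 : M * (K R G).card ≤ M * R.card :=
        Nat.mul_le_mul_left M (card_le_card (filter_subset _ _))
      exact ⟨D, c1, by omega⟩

theorem main (k n : ℕ) (G : SimpleGraph (Fin n)) : ∃ D : Finset (Fin n),
    5 * k * D.card ≤ (k + 20) * n ∧ ∀ (W : Type) (H : SimpleGraph W), H.Connected →
      k ≤ Nat.card W →
      ¬ ∃ f : H →g G, Function.Injective f ∧ ∀ x : W, f x ∉ D ∧ ∀ d ∈ D, ¬ G.Adj d (f x) := by
  obtain ⟨D, h1, h2⟩ := stage (G := G) (M := k) n univ (by simp)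
  refine ⟨D, ?_, ?_⟩
  · rw [card_univ, Fintype.card_fin] at h2
    rw [mul_assoc, add_mul]
    exact h2
  · rintro W H hH hk ⟨f, hf, hD⟩
    have nd : ∀ x, ¬ dom G D (f x) := by
      rintro x ⟨d, hd, k1 | k1⟩
      · exact (hD x).1 (k1 ▸ hd)
      · exact (hD x).2 d hd k1
    obtain ⟨x0⟩ := hH.nonempty
    obtain ⟨T, a1, -, a3, a4⟩ := h1 (f x0) (mem_univ _) (nd x0)
    have all : ∀ x y, H.Walk x y → f x ∈ T → f y ∈ T := by
      intro x y p
      induction p with
      | nil => exact id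
      | cons e _ ih => exact fun k1 => ih (a4 _ k1 _ (mem_univ _) (nd _) (f.map_adj e))
    have inT : ∀ x, f x ∈ T := fun x => (hH.preconnected x0 x).elim fun p => all x0 x p a1
    have := Nat.card_le_card_of_injective (fun x => (⟨f x, inT x⟩ : T))
      fun x y e => hf (congrArg Subtype.val e)
    rw [Nat.card_eq_fintype_card (α := T), Fintype.card_coe] at this
    omega

end Pool.Agent.FS.FifthUp
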